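import Mathlib

/-! MP_1c105c_an: the maximum principle with an exceptional set of measure zero on the circle. -/

set_option autoImplicit false

open Filter Topology Set MeasureTheory

namespace Pool.Agent.Imp.MaxNull

theorem max_lim {W : Set ℂ} (hW : IsOpen W) (hb : Bornology.IsBounded W) {G : ℂ → ℂ}
    (hG : DifferentiableOn ℂ G W) {c : ℝ}
    (h : ∀ z ∈ frontier W, ∃ N ∈ 𝓝 z, ∀ w ∈ N, w ∈ W → ‖G w‖ ≤ c) :
    ∀ w ∈ W, ‖G w‖ ≤ c := by
  intro w₁ hw₁
  by_contra hcon
  push Not at hcon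
  obtain ⟨c', h1, h2⟩ := exists_between hcon
  have hcont : ContinuousOn (fun w => ‖G w‖) W := hG.continuousOn.norm
  have hK : IsClosed {w | w ∈ W ∧ c' ≤ ‖G w‖} := by
    rw [← closure_subset_iff_isClosed]
    intro z hz
    have hzW : z ∈ closure W := closure_mono (fun w hw => hw.1) hz
    by_cases hzW' : z ∈ W
    · refine ⟨hzW', ?_⟩
      have hc : ContinuousAt (fun w => ‖G w‖) z := hcont.continuousAt (hW.mem_nhds hzW')
      by_contra hlt
      push Not at hlt
      have hev : ∀ᶠ w in 𝓝 z, ‖G w‖ < c' := hc.eventually (gt_mem_nhds hlt)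
      obtain ⟨w, hw, hwK⟩ := mem_closure_iff_nhds.1 hz _ hev
      exact absurd hw (not_lt.2 hwK.2)
    · have hzf : z ∈ frontier W := ⟨hzW, by rwa [hW.interior_eq]⟩
      obtain ⟨N, hN, hNb⟩ := h z hzf
      obtain ⟨w, hw, hwK⟩ := mem_closure_iff_nhds.1 hz N hN
      have h3 := hNb w hw hwK.1
      linarith [hwK.2]
  have hUo : IsOpen {w | w ∈ W ∧ c' < ‖G w‖} := hcont.isOpen_inter_preimage hW isOpen_Ioi
  have hUK : closure {w | w ∈ W ∧ c' < ‖G w‖} ⊆ {w | w ∈ W ∧ c' ≤ ‖G w‖} :=
    closure_minimal (fun w hw => ⟨hw.1, hw.2.le⟩) hK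
  have hdiff : DiffContOnCl ℂ G {w | w ∈ W ∧ c' < ‖G w‖} :=
    (hG.mono fun w hw => (hUK hw).1).diffContOnCl
  have hfr : ∀ z ∈ frontier {w | w ∈ W ∧ c' < ‖G w‖}, ‖G z‖ ≤ c' := by
    intro z hz
    have hzK := hUK hz.1
    by_contra hlt
    push Not at hlt
    exact hz.2 (by rw [hUo.interior_eq]; exact ⟨hzK.1, hlt⟩)
  have hmax := Complex.norm_le_of_forall_mem_frontier_norm_le
    (hb.subset fun w hw => hw.1) hdiff hfr
    (subset_closure (⟨hw₁, h2⟩ : w₁ ∈ {w | w ∈ W ∧ c' < ‖G w‖}))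
  linarith

theorem cover {K : Set ℝ} (hK : IsCompact K) (h0 : volume K = 0) {η : ℝ} (hη : 0 < η) :
    ∃ r : ℝ, 0 < r ∧ r < η ∧ ∃ J : Finset ℤ, (J.card : ℝ) * r ≤ η ∧
      ∀ t ∈ K, ∃ j ∈ J, |t - j * r| ≤ r := by
  classical
  have ht := tendsto_measure_cthickening_of_isCompact (μ := volume) hK
  rw [h0] at ht
  have h1 : ∀ᶠ r in 𝓝 (0 : ℝ), volume (Metric.cthickening r K) < ENNReal.ofReal η :=
    ht.eventually (gt_mem_nhds (ENNReal.ofReal_pos.2 hη))
  have h2 : ∀ᶠ r in 𝓝 (0 : ℝ), r < η := gt_mem_nhds hη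
  have h3 : ∀ᶠ r in 𝓝[>] (0 : ℝ), volume (Metric.cthickening r K) < ENNReal.ofReal η ∧ r < η ∧
      0 < r := by
    filter_upwards [nhdsWithin_le_nhds h1, nhdsWithin_le_nhds h2, self_mem_nhdsWithin] with r a b c
    exact ⟨a, b, c⟩
  obtain ⟨r, hr1, hr2, hr0⟩ := h3.exists
  obtain ⟨R, hR⟩ := hK.isBounded.subset_closedBall 0
  refine ⟨r, hr0, hr2, (Finset.Icc ⌊-R / r⌋ ⌊R / r⌋).filter fun j => ∃ t ∈ K, ⌊t / r⌋ = j, ?_, ?_⟩
  · set J := (Finset.Icc ⌊-R / r⌋ ⌊R / r⌋).filter fun j => ∃ t ∈ K, ⌊t / r⌋ = j with hJ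
    have hsub : (⋃ j ∈ J, Ico ((j : ℝ) * r) ((j + 1) * r)) ⊆ Metric.cthickening r K := by
      intro x hx
      simp only [mem_iUnion] at hx
      obtain ⟨j, hj, hx1, hx2⟩ := hx
      obtain ⟨-, t, htK, htj⟩ := Finset.mem_filter.1 hj
      have h4 := Int.floor_le (t / r)
      have h5 := Int.lt_floor_add_one (t / r)
      rw [htj, le_div_iff₀ hr0] at h4
      rw [htj, div_lt_iff₀ hr0] at h5
      apply Metric.mem_cthickening_of_dist_le x t r K htK
      rw [Real.dist_eq, abs_le]
      constructor <;> nlinarith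
    have hdisj : (J : Set ℤ).PairwiseDisjoint fun j : ℤ => Ico ((j : ℝ) * r) ((j + 1) * r) := by
      intro i _ j _ hij
      rw [Function.onFun, Set.disjoint_left]
      rintro x ⟨hx1, hx2⟩ ⟨hx3, hx4⟩
      apply hij
      have e1 : ⌊x / r⌋ = i := by
        rw [Int.floor_eq_iff, le_div_iff₀ hr0, div_lt_iff₀ hr0]
        exact ⟨hx1, hx2⟩
      have e2 : ⌊x / r⌋ = j := by
        rw [Int.floor_eq_iff, le_div_iff₀ hr0, div_lt_iff₀ hr0]
        exact ⟨hx3, hx4⟩
      rw [← e1, e2]
    have h6 := (measure_mono hsub).trans hr1.le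
    rw [measure_biUnion_finset hdisj fun j _ => measurableSet_Ico] at h6
    have h7 : ∀ j ∈ J, volume (Ico ((j : ℝ) * r) ((j + 1) * r)) = ENNReal.ofReal r := by
      intro j _
      rw [Real.volume_Ico]
      congr 1
      ring
    rw [Finset.sum_congr rfl h7, Finset.sum_const, nsmul_eq_mul, ← ENNReal.ofReal_natCast,
      ← ENNReal.ofReal_mul (Nat.cast_nonneg _)] at h6
    exact (ENNReal.ofReal_le_ofReal_iff hη.le).1 h6
  · intro t ht
    have hb := hR ht
    rw [Metric.mem_closedBall, dist_zero_right, Real.norm_eq_abs, abs_le] at hb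
    refine ⟨⌊t / r⌋, Finset.mem_filter.2 ⟨Finset.mem_Icc.2 ⟨?_, ?_⟩, t, ht, rfl⟩, ?_⟩
    · apply Int.floor_mono
      exact div_le_div_of_nonneg_right hb.1 hr0.le
    · apply Int.floor_mono
      exact div_le_div_of_nonneg_right hb.2 hr0.le
    · have h4 := Int.floor_le (t / r)
      have h5 := Int.lt_floor_add_one (t / r)
      rw [le_div_iff₀ hr0] at h4
      rw [div_lt_iff₀ hr0] at h5
      rw [abs_le]
      constructor <;> nlinarith

/-- the real part of the kernel -/
theorem re_kernel (w a : ℂ) :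
    ((w + a) / (w - a)).re = (Complex.normSq w - Complex.normSq a) / Complex.normSq (w - a) := by
  rw [Complex.div_re, ← add_div]
  congr 1
  simp only [Complex.add_re, Complex.sub_re, Complex.add_im, Complex.sub_im, Complex.normSq_apply]
  ring

theorem kernel_nonneg {w a : ℂ} (ha : ‖a‖ ≤ 1) (hw : 1 < ‖w‖) : 0 ≤ ((w + a) / (w - a)).re := by
  rw [re_kernel]
  apply div_nonneg _ (Complex.normSq_nonneg _)
  rw [Complex.normSq_eq_norm_sq, Complex.normSq_eq_norm_sq]
  nlinarith [norm_nonneg a, norm_nonneg w]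

theorem kernel_ge {w ζ : ℂ} {ε : ℝ} (hε0 : 0 < ε) (hε1 : ε < 1) (hζ : ‖ζ‖ = 1) (hw : 1 < ‖w‖)
    (hd : ‖w - ζ‖ ≤ 2 * ε) :
    1 ≤ 9 * ε * ((w + ((1 - ε : ℝ) : ℂ) * ζ) / (w - ((1 - ε : ℝ) : ℂ) * ζ)).re := by
  rw [re_kernel, Complex.normSq_eq_norm_sq, Complex.normSq_eq_norm_sq, Complex.normSq_eq_norm_sq]
  have ha : ‖((1 - ε : ℝ) : ℂ) * ζ‖ = 1 - ε := by
    rw [norm_mul, hζ, mul_one, Complex.norm_real, Real.norm_eq_abs, abs_of_pos (by linarith)]
  have h1 : ‖w - ((1 - ε : ℝ) : ℂ) * ζ‖ ≤ 3 * ε := by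
    have e1 : w - ((1 - ε : ℝ) : ℂ) * ζ = (w - ζ) + ((ε : ℝ) : ℂ) * ζ := by
      push_cast
      ring
    rw [e1]
    refine (norm_add_le _ _).trans ?_
    rw [norm_mul, hζ, mul_one, Complex.norm_real, Real.norm_eq_abs, abs_of_pos hε0]
    linarith
  have h2 : 0 < ‖w - ((1 - ε : ℝ) : ℂ) * ζ‖ := by
    have h3 := norm_sub_norm_le w (((1 - ε : ℝ) : ℂ) * ζ)
    rw [ha] at h3
    linarith
  rw [ha, mul_div_assoc', le_div_iff₀ (by positivity)]
  have h4 : ‖w - ((1 - ε : ℝ) : ℂ) * ζ‖ ^ 2 ≤ (3 * ε) ^ 2 := by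
    apply pow_le_pow_left₀ (norm_nonneg _) h1
  have h5 : ε ≤ ‖w‖ ^ 2 - (1 - ε) ^ 2 := by nlinarith
  nlinarith

theorem kernel_le {w a : ℂ} (ha : ‖a‖ ≤ 1) (hw : 1 < ‖w‖) :
    ((w + a) / (w - a)).re ≤ (‖w‖ + 1) / (‖w‖ - 1) := by
  refine (Complex.re_le_norm _).trans ?_
  rw [norm_div]
  have h1 := norm_add_le w a
  have h2 := norm_sub_norm_le w a
  exact div_le_div₀ (by linarith) (by linarith) (by linarith) (by linarith)

theorem norm_exp_sub_exp (a b : ℝ) :
    ‖Complex.exp (2 * Real.pi * a * Complex.I) - Complex.exp (2 * Real.pi * b * Complex.I)‖ ≤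
      2 * Real.pi * |a - b| := by
  have e1 : Complex.exp (2 * Real.pi * a * Complex.I) - Complex.exp (2 * Real.pi * b * Complex.I) =
      Complex.exp (2 * Real.pi * b * Complex.I) *
        (Complex.exp (Complex.I * ((2 * Real.pi * (a - b) : ℝ) : ℂ)) - 1) := by
    rw [mul_sub, ← Complex.exp_add, mul_one]
    congr 2
    push_cast
    ring
  have e2 : ‖Complex.exp (2 * Real.pi * b * Complex.I)‖ = 1 := by
    have := Complex.norm_exp_ofReal_mul_I (2 * Real.pi * b)
    push_cast at this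
    exact this
  rw [e1, norm_mul, e2, one_mul]
  refine (Real.norm_exp_I_mul_ofReal_sub_one_le).trans ?_
  rw [Real.norm_eq_abs, abs_mul, abs_of_pos (by positivity)]

/-- The maximum principle with an exceptional set of measure zero on the unit circle. -/
theorem max_null (W : Set ℂ) (hW : IsOpen W) (hsub : ∀ w ∈ W, 1 < ‖w‖)
    (hb : Bornology.IsBounded W) (F : ℂ → ℂ) (hF : DifferentiableOn ℂ F W) (M : ℝ)
    (hM : ∀ w ∈ W, ‖F w‖ ≤ M)
    (hfr : ∀ z ∈ frontier W, 1 < ‖z‖ → ∀ e > 0, ∃ N ∈ 𝓝 z, ∀ w ∈ N, w ∈ W → ‖F w‖ ≤ 1 + e)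
    (hnull : volume {t : ℝ | Complex.exp (2 * Real.pi * t * Complex.I) ∈ closure W} = 0) :
    ∀ w ∈ W, ‖F w‖ ≤ 1 := by
  intro w₀ hw₀
  have hw₀1 := hsub w₀ hw₀
  set L : ℝ := max M 0 with hL
  have hL0 : 0 ≤ L := le_max_right _ _
  have hML : M ≤ Real.exp L := by
    have := Real.add_one_le_exp L
    have h1 : M ≤ L := le_max_left _ _
    linarith
  set Cw : ℝ := (‖w₀‖ + 1) / (‖w₀‖ - 1) with hCw
  have hCw0 : 0 < Cw := div_pos (by linarith) (by linarith)
  -- the compact null set
  have hTc : IsClosed {t : ℝ | Complex.exp (2 * Real.pi * t * Complex.I) ∈ closure W} := by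
    apply isClosed_closure.preimage
    fun_prop
  have hKc : IsCompact ({t : ℝ | Complex.exp (2 * Real.pi * t * Complex.I) ∈ closure W} ∩
      Icc (-1) 1) := isCompact_Icc.inter_left hTc
  have hK0 : volume ({t : ℝ | Complex.exp (2 * Real.pi * t * Complex.I) ∈ closure W} ∩
      Icc (-1) 1) = 0 := measure_mono_null inter_subset_left hnull
  have hpi := Real.pi_pos
  have key : ∀ η : ℝ, 0 < η → η < 1 / (2 * Real.pi) →
      ‖F w₀‖ ≤ (1 + η) * Real.exp (L * (18 * Real.pi * η * Cw)) := by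
    intro η hη hη1
    obtain ⟨r, hr0, hrη, J, hJ, hcov⟩ := cover hKc hK0 hη
    set ε : ℝ := 2 * Real.pi * r with hε
    have hε0 : 0 < ε := by positivity
    have hε1 : ε < 1 := by
      have h1 : 2 * Real.pi * r < 2 * Real.pi * (1 / (2 * Real.pi)) := by
        apply mul_lt_mul_of_pos_left (hrη.trans hη1) (by positivity)
      rw [mul_one_div_cancel (by positivity)] at h1
      exact h1
    set ζ : ℤ → ℂ := fun j => Complex.exp (2 * Real.pi * ((j * r : ℝ) : ℂ) * Complex.I) with hζdef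
    have hζ : ∀ j, ‖ζ j‖ = 1 := by
      intro j
      have := Complex.norm_exp_ofReal_mul_I (2 * Real.pi * (j * r))
      rw [hζdef]
      push_cast at this ⊢
      exact this
    set a : ℤ → ℂ := fun j => ((1 - ε : ℝ) : ℂ) * ζ j with hadef
    have ha : ∀ j, ‖a j‖ ≤ 1 := by
      intro j
      rw [hadef]
      simp only
      rw [norm_mul, hζ, mul_one, Complex.norm_real, Real.norm_eq_abs, abs_of_pos (by linarith)]
      linarith
    set H : ℂ → ℂ := fun w => ∑ j ∈ J, ((9 * ε : ℝ) : ℂ) * ((w + a j) / (w - a j)) with hHdef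
    have hHre : ∀ w, (H w).re = ∑ j ∈ J, 9 * ε * ((w + a j) / (w - a j)).re := by
      intro w
      rw [hHdef]
      simp only [Complex.re_sum, Complex.re_ofReal_mul]
    have hH0 : ∀ w, 1 < ‖w‖ → 0 ≤ (H w).re := by
      intro w hw
      rw [hHre]
      exact Finset.sum_nonneg fun j _ => mul_nonneg (by positivity) (kernel_nonneg (ha j) hw)
    have hHd : DifferentiableOn ℂ H W := by
      intro w hw
      have h1 : ∀ j, w - a j ≠ 0 := by
        intro j h0
        have h2 := sub_eq_zero.1 h0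
        have h3 := hsub w hw
        rw [h2] at h3
        exact absurd (ha j) (not_le.2 h3)
      apply DifferentiableAt.differentiableWithinAt
      rw [hHdef]
      apply DifferentiableAt.fun_sum
      intro j _
      exact ((differentiableAt_id.add_const (a j)).div (differentiableAt_id.sub_const (a j))
        (h1 j)).const_mul _
    set G : ℂ → ℂ := fun w => F w * Complex.exp (-((L : ℝ) : ℂ) * H w) with hGdef
    have hGn : ∀ w, ‖G w‖ = ‖F w‖ * Real.exp (-(L * (H w).re)) := by
      intro w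
      rw [hGdef]
      simp only
      rw [norm_mul, Complex.norm_exp]
      congr 2
      rw [← Complex.ofReal_neg, Complex.re_ofReal_mul]
      ring
    have hGd : DifferentiableOn ℂ G W := hF.mul ((hHd.const_mul _).cexp)
    have hmax := max_lim hW hb hGd (c := 1 + η) ?_ w₀ hw₀
    · rw [hGn] at hmax
      have h1 : (H w₀).re ≤ 18 * Real.pi * η * Cw := by
        rw [hHre]
        calc ∑ j ∈ J, 9 * ε * ((w₀ + a j) / (w₀ - a j)).re ≤ ∑ _j ∈ J, 9 * ε * Cw := by
              apply Finset.sum_le_sum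
              intro j _
              exact mul_le_mul_of_nonneg_left (kernel_le (ha j) hw₀1) (by positivity)
          _ = 18 * Real.pi * ((J.card : ℝ) * r) * Cw := by
              rw [Finset.sum_const, nsmul_eq_mul, hε]
              ring
          _ ≤ 18 * Real.pi * η * Cw := by gcongr
      have h2 : ‖F w₀‖ = (‖F w₀‖ * Real.exp (-(L * (H w₀).re))) * Real.exp (L * (H w₀).re) := by
        rw [mul_assoc, ← Real.exp_add]
        simp
      rw [h2]
      apply mul_le_mul hmax _ (Real.exp_nonneg _) (by linarith)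
      apply Real.exp_le_exp.2
      exact mul_le_mul_of_nonneg_left h1 hL0
    · intro z hz
      by_cases hz1 : 1 < ‖z‖
      · obtain ⟨N, hN, hNb⟩ := hfr z hz hz1 η hη
        refine ⟨N, hN, fun w hw hwW => ?_⟩
        rw [hGn]
        have h1 : Real.exp (-(L * (H w).re)) ≤ 1 := by
          apply Real.exp_le_one_iff.2
          have := mul_nonneg hL0 (hH0 w (hsub w hwW))
          linarith
        calc ‖F w‖ * Real.exp (-(L * (H w).re)) ≤ ‖F w‖ * 1 :=
              mul_le_mul_of_nonneg_left h1 (norm_nonneg _)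
          _ ≤ 1 + η := by rw [mul_one]; exact hNb w hw hwW
      · have hzn : ‖z‖ = 1 := by
          apply le_antisymm (not_lt.1 hz1)
          have h1 : closure W ⊆ {w : ℂ | 1 ≤ ‖w‖} :=
            closure_minimal (fun w hw => (hsub w hw).le) (isClosed_le continuous_const continuous_norm)
          exact h1 hz.1
        -- the parameter
        have hzt : Complex.exp (2 * Real.pi * ((Complex.arg z / (2 * Real.pi) : ℝ) : ℂ) *
            Complex.I) = z := by
          have h1 := Complex.norm_mul_exp_arg_mul_I z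
          rw [hzn, Complex.ofReal_one, one_mul] at h1
          conv_rhs => rw [← h1]
          congr 2
          push_cast
          field_simp
        have htK : Complex.arg z / (2 * Real.pi) ∈
            {t : ℝ | Complex.exp (2 * Real.pi * t * Complex.I) ∈ closure W} ∩ Icc (-1) 1 := by
          refine ⟨?_, ?_, ?_⟩
          · rw [Set.mem_ofPred_eq, hzt]
            exact hz.1
          · rw [le_div_iff₀ (by positivity)]
            have := Complex.neg_pi_lt_arg z
            linarith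
          · rw [div_le_iff₀ (by positivity)]
            have := Complex.arg_le_pi z
            linarith
        obtain ⟨j, hj, hjt⟩ := hcov _ htK
        have hzζ : ‖z - ζ j‖ ≤ ε := by
          have h1 := norm_exp_sub_exp (Complex.arg z / (2 * Real.pi)) (j * r)
          rw [hzt] at h1
          refine h1.trans ?_
          rw [hε]
          exact mul_le_mul_of_nonneg_left hjt (by positivity)
        refine ⟨Metric.ball z ε, Metric.ball_mem_nhds z hε0, fun w hw hwW => ?_⟩
        rw [Metric.mem_ball, dist_eq_norm] at hw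
        have hwζ : ‖w - ζ j‖ ≤ 2 * ε := by
          have e1 : w - ζ j = (w - z) + (z - ζ j) := by ring
          rw [e1]
          refine (norm_add_le _ _).trans ?_
          linarith
        have hw1 := hsub w hwW
        have h1 : 1 ≤ (H w).re := by
          rw [hHre]
          have h2 := kernel_ge hε0 hε1 (hζ j) hw1 hwζ
          refine h2.trans ?_
          exact Finset.single_le_sum (f := fun j => 9 * ε * ((w + a j) / (w - a j)).re)
            (fun i _ => mul_nonneg (by positivity) (kernel_nonneg (ha i) hw1)) hj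
        rw [hGn]
        have h3 : Real.exp (-(L * (H w).re)) ≤ Real.exp (-L) := by
          apply Real.exp_le_exp.2
          nlinarith
        calc ‖F w‖ * Real.exp (-(L * (H w).re)) ≤ Real.exp L * Real.exp (-L) := by
              apply mul_le_mul ((hM w hwW).trans hML) h3 (Real.exp_nonneg _) (Real.exp_nonneg _)
          _ = 1 := by rw [← Real.exp_add]; simp
          _ ≤ 1 + η := by linarith
  -- the limit
  have hlim : Tendsto (fun η : ℝ => (1 + η) * Real.exp (L * (18 * Real.pi * η * Cw))) (𝓝[>] 0)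
      (𝓝 ((1 + 0) * Real.exp (L * (18 * Real.pi * 0 * Cw)))) := by
    apply Tendsto.mono_left _ nhdsWithin_le_nhds
    apply Continuous.tendsto
    fun_prop
  have h1 : (1 + 0) * Real.exp (L * (18 * Real.pi * 0 * Cw)) = 1 := by simp
  rw [h1] at hlim
  apply ge_of_tendsto hlim
  have h2 : ∀ᶠ η in 𝓝[>] (0 : ℝ), η < 1 / (2 * Real.pi) :=
    nhdsWithin_le_nhds (gt_mem_nhds (by positivity))
  filter_upwards [h2, self_mem_nhdsWithin] with η a b
  exact key η b a

end Pool.Agent.Imp.MaxNull
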